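import Mathlib

set_option autoImplicit false

/-!
Differences of distances to `n + 1` affinely independent points of Euclidean `n`-space determine
a point up to finitely many choices.
-/

namespace Pool.Agent.Hhelper51.ED

open Module

abbrev E (n : ℕ) := EuclideanSpace ℝ (Fin n)

theorem quad_roots_finite (a b c : ℝ) (h : ¬ (a = 0 ∧ c = 0)) :
    {t : ℝ | a * t ^ 2 + b * t + c = 0}.Finite := by
  classical
  set Q : Polynomial ℝ := Polynomial.C a * Polynomial.X ^ 2
    + Polynomial.C b * Polynomial.X + Polynomial.C c with hQ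
  have hQ0 : Q ≠ 0 := by
    intro h0
    apply h
    have c0 : Q.coeff 0 = c := by simp [hQ]
    have c2 : Q.coeff 2 = a := by
      simp [hQ, Polynomial.coeff_X, Polynomial.coeff_C]
    rw [h0, Polynomial.coeff_zero] at c0 c2
    exact ⟨c2.symm, c0.symm⟩
  refine (Q.roots.toFinset.finite_toSet).subset ?_
  intro t ht
  rw [Finset.mem_coe, Multiset.mem_toFinset, Polynomial.mem_roots hQ0]
  simp only [hQ, Polynomial.IsRoot.def, Polynomial.eval_add, Polynomial.eval_mul,
    Polynomial.eval_C, Polynomial.eval_pow, Polynomial.eval_X]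
  exact ht

theorem finite_line {V : Type*} [NormedAddCommGroup V] [InnerProductSpace ℝ V] (e f : V)
    (h : ¬ (‖e‖ = 1 ∧ f = 0)) : {t : ℝ | ‖t • e + f‖ ^ 2 = t ^ 2}.Finite := by
  refine (quad_roots_finite (‖e‖ ^ 2 - 1) (2 * inner ℝ e f) (‖f‖ ^ 2) ?_).subset ?_
  · rintro ⟨h1, h2⟩
    apply h
    constructor
    · have h2 := norm_nonneg e
      nlinarith
    · exact norm_eq_zero.1 ((pow_eq_zero_iff two_ne_zero).1 h2)
  · intro t ht
    have h1 : ‖t • e + f‖ ^ 2 = t ^ 2 := ht
    rw [norm_add_sq_real, norm_smul, inner_smul_left] at h1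
    have h2 : ‖t‖ ^ 2 = t ^ 2 := by rw [Real.norm_eq_abs, sq_abs]
    simp only [conj_trivial] at h1
    have h3 : (‖t‖ * ‖e‖) ^ 2 = t ^ 2 * ‖e‖ ^ 2 := by rw [mul_pow, h2]
    rw [h3] at h1
    show (‖e‖ ^ 2 - 1) * t ^ 2 + (2 * inner ℝ e f) * t + ‖f‖ ^ 2 = 0
    linarith

theorem finite_sol {n : ℕ} (hn : 2 ≤ n) (x0 : E n) (v : Fin n → E n)
    (hv : LinearIndependent ℝ v) (α : Fin n → ℝ) :
    {w : E n | ∀ j, dist w x0 - dist w (x0 + v j) = α j}.Finite := by
  classical
  let Φ : E n →ₗ[ℝ] (Fin n → ℝ) := LinearMap.pi (fun j => (innerₗ (E n)).flip (v j))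
  have hΦ : ∀ u j, Φ u j = inner ℝ u (v j) := fun u j => rfl
  have hspan : Submodule.span ℝ (Set.range v) = ⊤ := by
    apply hv.span_eq_top_of_card_eq_finrank'
    simp
  have hinj : Function.Injective Φ := by
    rw [← LinearMap.ker_eq_bot, LinearMap.ker_eq_bot']
    intro u hu
    have h1 : ∀ y ∈ Submodule.span ℝ (Set.range v), inner ℝ u y = 0 := by
      intro y hy
      induction hy using Submodule.span_induction with
      | mem z hz =>
        obtain ⟨j, rfl⟩ := hz
        rw [← hΦ, hu]; rfl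
      | zero => exact inner_zero_right _
      | add a b _ _ ha hb => rw [inner_add_right, ha, hb, add_zero]
      | smul c a _ ha => rw [inner_smul_right, ha, mul_zero]
    have h2 := h1 u (by rw [hspan]; exact Submodule.mem_top)
    exact inner_self_eq_zero.1 h2
  have hsurj : Function.Surjective Φ := by
    rw [← LinearMap.injective_iff_surjective_of_finrank_eq_finrank (by simp)]
    exact hinj
  obtain ⟨e, he⟩ := hsurj α
  obtain ⟨f, hf⟩ := hsurj (fun j => (‖v j‖ ^ 2 - α j ^ 2) / 2)
  have hne : ¬ (‖e‖ = 1 ∧ f = 0) := by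
    rintro ⟨h1, h0⟩
    have hsq : ∀ j, α j ^ 2 = ‖v j‖ ^ 2 := by
      intro j
      have h2 := congrFun hf j
      rw [h0, map_zero] at h2
      simp only [Pi.zero_apply] at h2
      linarith
    have hpar : ∀ j, v j = (α j) • e := by
      intro j
      have h3 : inner ℝ e (v j) = α j := by rw [← hΦ, he]
      have h4 : ‖v j - (α j) • e‖ ^ 2 = 0 := by
        rw [norm_sub_sq_real, norm_smul, inner_smul_right, real_inner_comm, h3, h1, mul_one,
          Real.norm_eq_abs, sq_abs, ← hsq j]
        ring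
      have h5 : ‖v j - (α j) • e‖ = 0 := by
        exact (pow_eq_zero_iff two_ne_zero).1 h4
      exact sub_eq_zero.1 (norm_eq_zero.1 h5)
    set i0 : Fin n := ⟨0, by omega⟩
    set i1 : Fin n := ⟨1, by omega⟩
    have hi : i0 ≠ i1 := by
      intro h
      have := congrArg Fin.val h
      simp [i0, i1] at this
    have hv2 : LinearIndependent ℝ ![v i0, v i1] := by
      have h7 : Function.Injective ![i0, i1] := by
        intro a b hab
        fin_cases a <;> fin_cases b <;> simp_all
      have h8 := hv.comp ![i0, i1] h7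
      have h9 : v ∘ ![i0, i1] = ![v i0, v i1] := by
        funext a; fin_cases a <;> rfl
      rwa [h9] at h8
    have hpair := LinearIndependent.pair_iff.1 hv2 (α i1) (-(α i0)) (by
      rw [hpar i0, hpar i1, smul_smul, smul_smul, ← add_smul]
      ring_nf
      exact zero_smul _ _)
    have h6 : v i0 = 0 := by
      rw [hpar i0, neg_eq_zero.1 hpair.2, zero_smul]
    exact hv.ne_zero i0 h6
  refine ((finite_line e f hne).image (fun t : ℝ => x0 + (t • e + f))).subset ?_
  intro w hw
  set u : E n := w - x0 with hu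
  have hdist : dist w x0 = ‖u‖ := by rw [dist_eq_norm]
  have hlin : u = ‖u‖ • e + f := by
    apply hinj
    ext j
    rw [map_add, map_smul, he, hf]
    simp only [Pi.add_apply, Pi.smul_apply, smul_eq_mul]
    rw [hΦ]
    have h1 := hw j
    have h2 : dist w (x0 + v j) = ‖u - v j‖ := by
      rw [dist_eq_norm, hu]; congr 1; abel
    rw [hdist, h2] at h1
    have h3 : ‖u - v j‖ = ‖u‖ - α j := by linarith
    have h4 := congrArg (fun s : ℝ => s ^ 2) h3
    simp only [norm_sub_sq_real] at h4
    linarith [h4]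
  refine ⟨‖u‖, ?_, ?_⟩
  · show ‖‖u‖ • e + f‖ ^ 2 = ‖u‖ ^ 2
    rw [← hlin]
  · show x0 + (‖u‖ • e + f) = w
    rw [← hlin, hu]; abel

end Pool.Agent.Hhelper51.ED
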