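import Mathlib

set_option autoImplicit false

/-!
The `p`-adic part: if the negative of Heron's product is not a nonzero square of `ℚ_p`, then two
sides of a rational triangle agree up to sign modulo the third side.
-/

namespace Pool.Agent.Hhelper51.ED

open Polynomial

/-- `1 - x` is a nonzero square when `x` is divisible by more than four -/
theorem one_sub_square {p : ℕ} [Fact p.Prime] (x : ℚ_[p]) (hx : ‖x‖ < ‖(2 : ℚ_[p])‖ ^ 2) :
    ∃ z : ℚ_[p], z ≠ 0 ∧ z * z = 1 - x := by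
  have h2 : ‖(2 : ℚ_[p])‖ ≤ 1 := by
    have := Padic.norm_int_le_one (p := p) 2
    exact_mod_cast this
  have hx1 : ‖x‖ < 1 := lt_of_lt_of_le hx (by nlinarith [norm_nonneg (2 : ℚ_[p])])
  set y : ℤ_[p] := ⟨x, hx1.le⟩ with hy
  set F : Polynomial ℤ_[p] := X ^ 2 - C (1 - y) with hF
  have e1 : F.aeval (1 : ℤ_[p]) = y := by
    simp [hF]
  have e2 : F.derivative.aeval (1 : ℤ_[p]) = 2 := by
    simp [hF, derivative_X_pow]
    norm_num
  have n1 : ‖(2 : ℤ_[p])‖ = ‖(2 : ℚ_[p])‖ := by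
    rw [PadicInt.norm_def]; norm_cast
  have hh : ‖F.aeval (1 : ℤ_[p])‖ < ‖F.derivative.aeval (1 : ℤ_[p])‖ ^ 2 := by
    rw [e1, e2, n1]
    exact hx
  obtain ⟨z, hz, -⟩ := hensels_lemma hh
  have hz2 : z ^ 2 = 1 - y := by
    have : F.aeval z = z ^ 2 - (1 - y) := by simp [hF]
    rw [this] at hz
    linear_combination hz
  refine ⟨(z : ℚ_[p]), ?_, ?_⟩
  · intro h0
    have hz0 : z = 0 := Subtype.ext h0
    rw [hz0] at hz2
    have h3 : y = 1 := by
      have h5 : (0 : ℤ_[p]) ^ 2 = 0 := by ring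
      rw [h5] at hz2
      linear_combination hz2
    have h4 : x = 1 := by
      have := congrArg (fun t : ℤ_[p] => (t : ℚ_[p])) h3
      simpa [hy] using this
    rw [h4, norm_one] at hx1
    exact lt_irrefl _ hx1
  · have h6 : ((z ^ 2 : ℤ_[p]) : ℚ_[p]) = ((1 - y : ℤ_[p]) : ℚ_[p]) := by rw [hz2]
    rw [PadicInt.coe_pow, PadicInt.coe_sub, PadicInt.coe_one] at h6
    have h7 : ((y : ℤ_[p]) : ℚ_[p]) = x := rfl
    rw [h7] at h6
    rw [← h6]; ring

/-- Heron's product: sixteen times the squared area of a triangle with sides `a, b, c` -/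
def heron (a b c : ℚ) : ℚ := (a + b + c) * (-a + b + c) * (a - b + c) * (a + b - c)

theorem heron_eq (a b c : ℚ) :
    -heron a b c = (c ^ 2 - (a - b) ^ 2) * (c ^ 2 - (a + b) ^ 2) := by
  unfold heron; ring

/-- the prime `p` is non-split for the triangle with sides `a, b, c` -/
def NonSplitTri (p : ℕ) (a b c : ℚ) : Prop :=
  ∀ [Fact p.Prime], ¬ ∃ z : ℚ_[p], z ≠ 0 ∧ z * z = ((-heron a b c : ℚ) : ℚ_[p])

theorem key {p : ℕ} [hp : Fact p.Prime] {a b c : ℚ} (h : NonSplitTri p a b c) :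
    ‖(2 : ℚ_[p])‖ * ‖((a - b : ℚ) : ℚ_[p])‖ ≤ ‖(c : ℚ_[p])‖ ∨
      ‖(2 : ℚ_[p])‖ * ‖((a + b : ℚ) : ℚ_[p])‖ ≤ ‖(c : ℚ_[p])‖ := by
  by_contra hcon
  push Not at hcon
  obtain ⟨h1, h2⟩ := hcon
  have hc0 : 0 ≤ ‖(c : ℚ_[p])‖ := norm_nonneg _
  set s : ℚ_[p] := ((a - b : ℚ) : ℚ_[p]) with hs
  set t : ℚ_[p] := ((a + b : ℚ) : ℚ_[p]) with ht
  have n2 : 0 < ‖(2 : ℚ_[p])‖ := norm_pos_iff.2 two_ne_zero
  have hs0 : s ≠ 0 := by
    intro h0
    rw [h0, norm_zero, mul_zero] at h1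
    linarith
  have ht0 : t ≠ 0 := by
    intro h0
    rw [h0, norm_zero, mul_zero] at h2
    linarith
  have aux : ∀ u : ℚ_[p], u ≠ 0 → ‖(c : ℚ_[p])‖ < ‖(2 : ℚ_[p])‖ * ‖u‖ →
      ‖((c : ℚ_[p]) / u) ^ 2‖ < ‖(2 : ℚ_[p])‖ ^ 2 := by
    intro u hu hlt
    rw [norm_pow, norm_div]
    have hun : 0 < ‖u‖ := norm_pos_iff.2 hu
    have h3 : ‖(c : ℚ_[p])‖ / ‖u‖ < ‖(2 : ℚ_[p])‖ := by
      rw [div_lt_iff₀ hun]; exact hlt
    have h4 : 0 ≤ ‖(c : ℚ_[p])‖ / ‖u‖ := div_nonneg hc0 hun.le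
    nlinarith
  obtain ⟨z, hz0, hz⟩ := one_sub_square _ (aux s hs0 h1)
  obtain ⟨z', hz0', hz'⟩ := one_sub_square _ (aux t ht0 h2)
  apply h
  refine ⟨s * t * z * z', mul_ne_zero (mul_ne_zero (mul_ne_zero hs0 ht0) hz0) hz0', ?_⟩
  rw [heron_eq]
  push_cast
  have e1 : s * s * (z * z) = s ^ 2 - (c : ℚ_[p]) ^ 2 := by
    rw [hz]; field_simp
  have e2 : t * t * (z' * z') = t ^ 2 - (c : ℚ_[p]) ^ 2 := by
    rw [hz']; field_simp
  have hs' : s = (a : ℚ_[p]) - b := by rw [hs]; push_cast; ring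
  have ht' : t = (a : ℚ_[p]) + b := by rw [ht]; push_cast; ring
  have e3 : s * t * z * z' * (s * t * z * z') = (s * s * (z * z)) * (t * t * (z' * z')) := by ring
  rw [e3, e1, e2, hs', ht']
  ring

/-- a rational number that is integral at every prime is an integer -/
theorem int_of_local (q : ℚ) (h : ∀ p : ℕ, ∀ [Fact p.Prime], ‖(q : ℚ_[p])‖ ≤ 1) :
    ∃ k : ℤ, (k : ℚ) = q := by
  have hd : q.den = 1 := by
    by_contra hne
    obtain ⟨p, hp, hpd⟩ := Nat.exists_prime_and_dvd hne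
    haveI : Fact p.Prime := ⟨hp⟩
    have h1 := h p
    have hnum : ¬ (p : ℤ) ∣ q.num := by
      intro hdiv
      have h2 : p ∣ q.num.natAbs := Int.natCast_dvd.1 hdiv
      have := Nat.Coprime.eq_one_of_dvd (Nat.Coprime.coprime_dvd_left h2 q.reduced) hpd
      exact hp.one_lt.ne' this
    have e : (q : ℚ_[p]) * (q.den : ℚ_[p]) = (q.num : ℚ_[p]) := by
      have := Rat.mul_den_eq_num q
      have h5 := congrArg (fun t : ℚ => (t : ℚ_[p])) this
      push_cast at h5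
      exact h5
    have n1 : ‖(q.num : ℚ_[p])‖ = 1 := by
      have h6 := Padic.norm_int_le_one (p := p) q.num
      rcases h6.lt_or_eq with h7 | h7
      · exact absurd ((Padic.norm_intCast_lt_one_iff).1 h7) hnum
      · exact h7
    have n2 : ‖(q.den : ℚ_[p])‖ < 1 := by
      have : ((q.den : ℤ) : ℚ_[p]) = (q.den : ℚ_[p]) := by norm_cast
      rw [← this]
      exact (Padic.norm_intCast_lt_one_iff).2 (by exact_mod_cast hpd)
    have h8 := congrArg norm e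
    rw [norm_mul, n1] at h8
    have h9 : 0 ≤ ‖(q.den : ℚ_[p])‖ := norm_nonneg _
    have h10 : 0 ≤ ‖(q : ℚ_[p])‖ := norm_nonneg _
    nlinarith
  exact ⟨q.num, by rw [← Rat.den_eq_one_iff] ; exact hd⟩

end Pool.Agent.Hhelper51.ED
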