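import Mathlib
import Pool.Agent.Hhelper51.ED.Geom

set_option autoImplicit false

/-!
General position and finiteness of the set of points whose distances to the points of an affine
basis differ by rational numbers of bounded denominator.
-/

namespace Pool.Agent.Hhelper51.ED

open Module

variable {n : ℕ}

theorem finite_sol' (hn : 2 ≤ n) (I : Finset (E n)) (hI : I.card = n + 1)
    (hind : AffineIndependent ℝ (fun y : I => (y : E n))) (x0 : E n) (hx0 : x0 ∈ I)
    (β : E n → ℝ) : {w : E n | ∀ y ∈ I, dist w x0 - dist w y = β y}.Finite := by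
  classical
  rw [affineIndependent_iff_linearIndependent_vsub ℝ _ (⟨x0, hx0⟩ : I)] at hind
  have hcard : Fintype.card {x : I // x ≠ ⟨x0, hx0⟩} = n := by
    rw [Fintype.card_subtype_compl, Fintype.card_subtype_eq, Fintype.card_coe, hI]
    simp
  let e : Fin n ≃ {x : I // x ≠ ⟨x0, hx0⟩} := (Fintype.equivFinOfCardEq hcard).symm
  have hv := hind.comp e e.injective
  refine (finite_sol hn x0 _ hv (fun j => β ((e j : I) : E n))).subset ?_
  intro w hw j
  have h1 := hw ((e j : I) : E n) (e j : I).2
  have h2 : x0 + (((fun i : {x : I // x ≠ ⟨x0, hx0⟩} => ((i : I) : E n) -ᵥ ((⟨x0, hx0⟩ : I) : E n)) ∘ e) j)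
      = ((e j : I) : E n) := by
    simp only [Function.comp_apply, vsub_eq_sub]
    abel
  rw [h2]
  exact h1

theorem finite_values (M : ℕ) (hM : 0 < M) (R : ℝ) :
    {a : ℝ | |a| ≤ R ∧ ∃ k : ℤ, (2 * M : ℝ) * a = k}.Finite := by
  have hM' : (0 : ℝ) < 2 * M := by positivity
  refine ((Set.finite_Icc (-⌈2 * M * R⌉) (⌈2 * M * R⌉)).image
    (fun k : ℤ => (k : ℝ) / (2 * M))).subset ?_
  rintro a ⟨ha, k, hk⟩
  refine ⟨k, ?_, ?_⟩
  · have h1 : |(k : ℝ)| ≤ 2 * M * R := by
      rw [← hk, abs_mul, abs_of_pos hM']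
      exact mul_le_mul_of_nonneg_left ha hM'.le
    have h2 := abs_le.1 h1
    have h3 : (2 * M * R : ℝ) ≤ ⌈(2 * M * R : ℝ)⌉ := Int.le_ceil _
    constructor
    · have : ((-⌈(2 * M * R : ℝ)⌉ : ℤ) : ℝ) ≤ (k : ℝ) := by push_cast; linarith
      exact_mod_cast this
    · have : (k : ℝ) ≤ ((⌈(2 * M * R : ℝ)⌉ : ℤ) : ℝ) := by linarith
      exact_mod_cast this
  · show (k : ℝ) / (2 * M) = a
    rw [← hk]; field_simp

theorem finite_close (hn : 2 ≤ n) (I : Finset (E n)) (hI : I.card = n + 1)
    (hind : AffineIndependent ℝ (fun y : I => (y : E n))) (x0 : E n) (hx0 : x0 ∈ I)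
    (M : ℕ) (hM : 0 < M) :
    {w : E n | ∀ y ∈ I, ∃ k : ℤ, (2 * M : ℝ) * (dist w x0 - dist w y) = k}.Finite := by
  classical
  let V : I → Set ℝ := fun y => {a : ℝ | |a| ≤ dist x0 (y : E n) ∧ ∃ k : ℤ, (2 * M : ℝ) * a = k}
  have hV : (Set.univ.pi V).Finite := Set.Finite.pi' (fun y => finite_values M hM _) |>.subset (by
    intro g hg y
    exact hg y (Set.mem_univ _))
  let ext : (I → ℝ) → E n → ℝ := fun g y => if h : y ∈ I then g ⟨y, h⟩ else 0
  refine (hV.biUnion (fun g _ => finite_sol' hn I hI hind x0 hx0 (ext g))).subset ?_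
  intro w hw
  rw [Set.mem_iUnion₂]
  refine ⟨fun y => dist w x0 - dist w (y : E n), ?_, ?_⟩
  · intro y _
    refine ⟨?_, hw y y.2⟩
    have h1 := abs_dist_sub_le x0 (y : E n) w
    rwa [dist_comm x0 w, dist_comm (y : E n) w] at h1
  · intro y hy
    show dist w x0 - dist w y = ext (fun y => dist w x0 - dist w (y : E n)) y
    simp only [ext, dif_pos hy]

/-- a finite set in general position: any at most `n + 1` of its points are affinely independent -/
def GP (B : Finset (E n)) : Prop :=
  ∀ I ⊆ B, I.card ≤ n + 1 → AffineIndependent ℝ (fun y : I => (y : E n))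

theorem span_ne_top (hn : 1 ≤ n) (I : Finset (E n)) (hI : I.card ≤ n) :
    affineSpan ℝ (I : Set (E n)) ≠ ⊤ := by
  classical
  intro htop
  rcases I.eq_empty_or_nonempty with h | h
  · subst h
    simp at htop
  · obtain ⟨m, hm⟩ : ∃ m, I.card = m + 1 := ⟨I.card - 1, by have := h.card_pos; omega⟩
    have h1 := finrank_vectorSpan_image_finset_le ℝ (id : E n → E n) I hm
    rw [Finset.image_id] at h1
    rw [← direction_affineSpan, htop, AffineSubspace.direction_top, finrank_top] at h1
    have h3 : finrank ℝ (E n) = n := by simp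
    omega

theorem exists_GP (hn : 1 ≤ n) (S : Set (E n))
    (hS : ∀ F : Set (AffineSubspace ℝ (E n)), F.Finite → (∀ A ∈ F, A ≠ ⊤) →
      ¬ S ⊆ ⋃ A ∈ F, (A : Set (E n))) (N : ℕ) :
    ∃ B : Finset (E n), (B : Set (E n)) ⊆ S ∧ B.card = N ∧ GP B := by
  classical
  induction N with
  | zero =>
    refine ⟨∅, by simp, by simp, ?_⟩
    intro I hI _
    have : I = ∅ := Finset.subset_empty.1 hI
    subst this
    exact affineIndependent_of_subsingleton ℝ _
  | succ N ih =>
    obtain ⟨B, hBS, hBN, hGP⟩ := ih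
    let F : Finset (AffineSubspace ℝ (E n)) :=
      Finset.image (fun I : Finset (E n) => affineSpan ℝ (I : Set (E n)))
        (B.powerset.filter (fun I => I.card ≤ n))
    have h1 := hS (F : Set (AffineSubspace ℝ (E n))) F.finite_toSet (by
      intro A hA
      obtain ⟨I, hI, rfl⟩ := Finset.mem_image.1 (Finset.mem_coe.1 hA)
      exact span_ne_top hn I (Finset.mem_filter.1 hI).2)
    rw [Set.not_subset] at h1
    obtain ⟨x, hxS, hx⟩ := h1
    have hx' : ∀ I ⊆ B, I.card ≤ n → x ∉ affineSpan ℝ (I : Set (E n)) := by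
      intro I hI hc hmem
      apply hx
      rw [Set.mem_iUnion₂]
      exact ⟨_, Finset.mem_coe.2 (Finset.mem_image.2
        ⟨I, Finset.mem_filter.2 ⟨Finset.mem_powerset.2 hI, hc⟩, rfl⟩), hmem⟩
    have hxB : x ∉ B := by
      intro h
      refine hx' {x} (by simpa using h) (by simpa using hn) ?_
      exact subset_affineSpan ℝ _ (by simp)
    refine ⟨insert x B, ?_, by rw [Finset.card_insert_of_notMem hxB, hBN], ?_⟩
    · intro y hy
      rcases Finset.mem_insert.1 (Finset.mem_coe.1 hy) with h | h
      · rw [h]; exact hxS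
      · exact hBS (Finset.mem_coe.2 h)
    · intro I hI hc
      by_cases hxI : x ∈ I
      · have hsub : I.erase x ⊆ B := by
          intro y hy
          rcases Finset.mem_insert.1 (hI (Finset.mem_of_mem_erase hy)) with h | h
          · exact absurd h (Finset.ne_of_mem_erase hy)
          · exact h
        have hcard : (I.erase x).card ≤ n := by
          rw [Finset.card_erase_of_mem hxI]; omega
        have hind := hGP _ hsub (by omega)
        refine AffineIndependent.affineIndependent_of_notMem_span (i := (⟨x, hxI⟩ : I)) ?_ ?_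
        · let g : {y : I // y ≠ ⟨x, hxI⟩} → (I.erase x : Finset (E n)) := fun y =>
            ⟨((y : I) : E n), Finset.mem_erase.2 ⟨fun h => y.2 (Subtype.ext h), (y : I).2⟩⟩
          have hg : Function.Injective g := by
            intro a b hab
            have := congrArg (fun t : (I.erase x : Finset (E n)) => (t : E n)) hab
            exact Subtype.ext (Subtype.ext this)
          exact hind.comp_embedding ⟨g, hg⟩
        · intro hmem
          refine hx' (I.erase x) hsub hcard ?_
          refine affineSpan_mono ℝ ?_ hmem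
          rintro _ ⟨y, hy, rfl⟩
          exact Finset.mem_coe.2 (Finset.mem_erase.2 ⟨fun h => hy (Subtype.ext h), y.2⟩)
      · refine hGP I ?_ hc
        intro y hy
        rcases Finset.mem_insert.1 (hI hy) with h | h
        · exact absurd (h ▸ hy) hxI
        · exact h

end Pool.Agent.Hhelper51.ED
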