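import Mathlib
import Pool.Agent.Hhelper51.ED.Padic
import Pool.Agent.Hhelper51.ED.Position

set_option autoImplicit false

/-!
In a rational-distance set of Euclidean `n`-space (`n >= 2`) that is not covered by finitely many
proper affine subspaces, only finitely many points have distances whose denominators involve at
most `r` primes, all of them non-split.
-/

namespace Pool.Agent.Hhelper51.ED

open Module

variable {n : ℕ}

/-- all distances between points of `S` are rational -/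
def RatDist (S : Set (E n)) : Prop := ∀ x ∈ S, ∀ y ∈ S, ∃ q : ℚ, dist x y = q

/-- the prime `p` is non-split for `S` at `w` -/
def NonSplitAt (S : Set (E n)) (w : E n) (p : ℕ) : Prop :=
  ∀ x ∈ S, ∀ y ∈ S, ∀ a b c : ℚ, dist w x = a → dist w y = b → dist x y = c →
    NonSplitTri p a b c

/-- the denominators of the distances from `w` to `S` involve at most `r` primes, all
non-split -/
def Tame (S : Set (E n)) (r : ℕ) (w : E n) : Prop :=
  ∃ P : Finset ℕ, P.card ≤ r ∧ (∀ p ∈ P, NonSplitAt S w p) ∧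
    ∀ x ∈ S, ∀ q : ℚ, dist w x = q → ∀ p : ℕ, p.Prime → p ∣ q.den → p ∈ P

/-- the sign vector argument -/
theorem pigeon (S : Set (E n)) (hrat : RatDist S) (r m : ℕ) (B : Finset (E n))
    (hBS : (B : Set (E n)) ⊆ S) (hBN : B.card = m * 2 ^ r + 1) :
    ∃ M : ℕ, 0 < M ∧ ∀ w ∈ S, Tame S r w → ∃ I ⊆ B, I.card = m + 1 ∧
      ∀ x0 ∈ I, ∀ y ∈ I, ∃ k : ℤ, (2 * M : ℝ) * (dist w x0 - dist w y) = k := by
  classical
  have hBne : B.Nonempty := by
    rw [← Finset.card_pos, hBN]; omega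
  obtain ⟨z, hz⟩ := hBne
  have hzS : z ∈ S := hBS (Finset.mem_coe.2 hz)
  -- rational distances
  have hd : ∀ x y : E n, ∃ q : ℚ, (x ∈ S → y ∈ S → dist x y = q) := by
    intro x y
    by_cases h : x ∈ S ∧ y ∈ S
    · obtain ⟨q, hq⟩ := hrat x h.1 y h.2
      exact ⟨q, fun _ _ => hq⟩
    · exact ⟨0, fun h1 h2 => absurd ⟨h1, h2⟩ h⟩
  choose q hq using hd
  set M : ℕ := ∏ y ∈ B, (q z y).den with hM
  have hMpos : 0 < M := Finset.prod_pos (fun y _ => (q z y).den_pos)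
  have hMint : ∀ y ∈ B, ∃ k : ℤ, (M : ℚ) * q z y = k := by
    intro y hy
    obtain ⟨l, hl⟩ := Finset.dvd_prod_of_mem (fun y => (q z y).den) hy
    refine ⟨(l : ℤ) * (q z y).num, ?_⟩
    have h1 : (M : ℚ) = (q z y).den * l := by
      rw [hM, hl]; push_cast; ring
    rw [h1]
    have h2 := Rat.mul_den_eq_num (q z y)
    push_cast
    rw [← h2]; ring
  refine ⟨M, hMpos, ?_⟩
  rintro w hwS ⟨P, hPr, hPns, hPden⟩
  -- sign vectors
  let σ : E n → (P → Bool) := fun y p =>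
    if hp : (p : ℕ).Prime then
      haveI : Fact (p : ℕ).Prime := ⟨hp⟩
      decide (‖(2 : ℚ_[(p : ℕ)])‖ * ‖((q w z - q w y : ℚ) : ℚ_[(p : ℕ)])‖
        ≤ ‖((q z y : ℚ) : ℚ_[(p : ℕ)])‖)
    else true
  have hpig : ∃ s ∈ (Finset.univ : Finset (P → Bool)), m < (B.filter (fun y => σ y = s)).card := by
    refine Finset.exists_lt_card_fiber_of_mul_lt_card_of_maps_to (fun y _ => Finset.mem_univ _) ?_
    rw [hBN, Finset.card_univ, Fintype.card_fun, Fintype.card_coe, Fintype.card_bool]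
    have h1 : 2 ^ P.card ≤ 2 ^ r := Nat.pow_le_pow_right (by norm_num) hPr
    calc 2 ^ P.card * m ≤ 2 ^ r * m := Nat.mul_le_mul_right _ h1
      _ = m * 2 ^ r := Nat.mul_comm _ _
      _ < m * 2 ^ r + 1 := Nat.lt_succ_self _
  obtain ⟨s, -, hs⟩ := hpig
  obtain ⟨I, hIsub, hIcard⟩ := Finset.exists_subset_card_eq (Nat.succ_le_of_lt hs)
  have hIB : I ⊆ B := fun y hy => (Finset.mem_filter.1 (hIsub hy)).1
  have hIσ : ∀ y ∈ I, σ y = s := fun y hy => (Finset.mem_filter.1 (hIsub hy)).2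
  refine ⟨I, hIB, hIcard, ?_⟩
  intro x0 hx0 y hy
  have hyB := hIB hy
  have hxB := hIB hx0
  have hyS : y ∈ S := hBS (Finset.mem_coe.2 hyB)
  have hxS : x0 ∈ S := hBS (Finset.mem_coe.2 hxB)
  obtain ⟨k, hk⟩ := int_of_local (2 * M * (q w x0 - q w y)) (by
    intro p hp
    have hpp : p.Prime := hp.out
    have n2 : ‖(2 : ℚ_[p])‖ ≤ 1 := by
      have := Padic.norm_int_le_one (p := p) 2
      exact_mod_cast this
    have nM : ‖((M : ℕ) : ℚ_[p])‖ ≤ 1 := by
      have := Padic.norm_int_le_one (p := p) (M : ℤ)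
      exact_mod_cast this
    have nMc : ∀ y ∈ B, ‖((M : ℕ) : ℚ_[p])‖ * ‖((q z y : ℚ) : ℚ_[p])‖ ≤ 1 := by
      intro y hy
      obtain ⟨k, hk⟩ := hMint y hy
      have h1 := congrArg (fun t : ℚ => (t : ℚ_[p])) hk
      push_cast at h1
      rw [← norm_mul, h1]
      exact Padic.norm_int_le_one k
    have e0 : ((2 * M * (q w x0 - q w y) : ℚ) : ℚ_[p])
        = (M : ℚ_[p]) * (2 * ((q w x0 : ℚ_[p]) - (q w y : ℚ_[p]))) := by
      push_cast; ring
    rw [e0, norm_mul]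
    by_cases hpP : p ∈ P
    · -- non-split prime
      have hns := hPns p hpP
      have tri : ∀ y ∈ B, NonSplitTri p (q w z) (q w y) (q z y) := by
        intro y hy
        have hyS := hBS (Finset.mem_coe.2 hy)
        intro _
        exact hns z hzS y hyS _ _ _ (hq _ _ hwS hzS) (hq _ _ hwS hyS) (hq _ _ hzS hyS)
      have k0 := key (tri x0 hxB)
      have k1 := key (tri y hyB)
      have hσ : σ x0 ⟨p, hpP⟩ = σ y ⟨p, hpP⟩ := by rw [hIσ x0 hx0, hIσ y hy]
      simp only [σ, dif_pos hpp, decide_eq_decide] at hσ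
      have bound : ∀ u v : ℚ_[p], ‖(2 : ℚ_[p])‖ * ‖u‖ ≤ ‖((q z x0 : ℚ) : ℚ_[p])‖ →
          ‖(2 : ℚ_[p])‖ * ‖v‖ ≤ ‖((q z y : ℚ) : ℚ_[p])‖ →
          ‖(M : ℚ_[p])‖ * ‖2 * (u - v)‖ ≤ 1 := by
        intro u v hu hv
        have h1 : ‖2 * (u - v)‖ ≤ max (‖(2 : ℚ_[p])‖ * ‖u‖) (‖(2 : ℚ_[p])‖ * ‖v‖) := by
          rw [← norm_mul, ← norm_mul, mul_sub, sub_eq_add_neg]
          refine le_trans (Padic.nonarchimedean _ _) ?_
          rw [norm_neg]
        have h2 := norm_nonneg (M : ℚ_[p])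
        rcases le_total (‖(2 : ℚ_[p])‖ * ‖u‖) (‖(2 : ℚ_[p])‖ * ‖v‖) with h3 | h3
        · rw [max_eq_right h3] at h1
          exact le_trans (mul_le_mul_of_nonneg_left (h1.trans hv) h2) (nMc y hyB)
        · rw [max_eq_left h3] at h1
          exact le_trans (mul_le_mul_of_nonneg_left (h1.trans hu) h2) (nMc x0 hxB)
      by_cases hc : ‖(2 : ℚ_[p])‖ * ‖((q w z - q w x0 : ℚ) : ℚ_[p])‖
          ≤ ‖((q z x0 : ℚ) : ℚ_[p])‖
      · have hc' := hσ.1 hc
        have h5 := bound _ _ hc hc'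
        have e5 : (2 : ℚ_[p]) * ((q w x0 : ℚ_[p]) - (q w y : ℚ_[p]))
            = -(2 * (((q w z - q w x0 : ℚ) : ℚ_[p]) - ((q w z - q w y : ℚ) : ℚ_[p]))) := by
          push_cast; ring
        rw [e5, norm_neg]
        exact h5
      · have hc' : ¬ ‖(2 : ℚ_[p])‖ * ‖((q w z - q w y : ℚ) : ℚ_[p])‖
            ≤ ‖((q z y : ℚ) : ℚ_[p])‖ := fun h => hc (hσ.2 h)
        have h5 := bound _ _ (k0.resolve_left hc) (k1.resolve_left hc')
        have e5 : (2 : ℚ_[p]) * ((q w x0 : ℚ_[p]) - (q w y : ℚ_[p]))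
            = 2 * (((q w z + q w x0 : ℚ) : ℚ_[p]) - ((q w z + q w y : ℚ) : ℚ_[p])) := by
          push_cast; ring
        rw [e5]
        exact h5
    · -- a prime outside `P`
      have h1 : ‖((q w x0 : ℚ) : ℚ_[p])‖ ≤ 1 := by
        apply Padic.norm_rat_le_one
        intro hdiv
        exact hpP (hPden x0 hxS _ (hq _ _ hwS hxS) p hpp hdiv)
      have h2 : ‖((q w y : ℚ) : ℚ_[p])‖ ≤ 1 := by
        apply Padic.norm_rat_le_one
        intro hdiv
        exact hpP (hPden y hyS _ (hq _ _ hwS hyS) p hpp hdiv)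
      have h3 : ‖(q w x0 : ℚ_[p]) - (q w y : ℚ_[p])‖ ≤ 1 := by
        rw [sub_eq_add_neg]
        refine le_trans (Padic.nonarchimedean _ _) ?_
        rw [norm_neg]
        exact max_le h1 h2
      rw [norm_mul]
      have := norm_nonneg (M : ℚ_[p])
      have := norm_nonneg (2 : ℚ_[p])
      have := norm_nonneg ((q w x0 : ℚ_[p]) - (q w y : ℚ_[p]))
      have h4 : ‖(2 : ℚ_[p])‖ * ‖(q w x0 : ℚ_[p]) - (q w y : ℚ_[p])‖ ≤ 1 := mul_le_one₀ n2 this h3
      exact mul_le_one₀ nM (by positivity) h4)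
  refine ⟨k, ?_⟩
  rw [hq w x0 hwS hxS, hq w y hwS hyS]
  have h6 := congrArg (fun t : ℚ => (t : ℝ)) hk
  push_cast at h6
  linarith [h6]

theorem main (hn : 2 ≤ n) (S : Set (E n)) (hrat : RatDist S)
    (hS : ∀ F : Set (AffineSubspace ℝ (E n)), F.Finite → (∀ A ∈ F, A ≠ ⊤) →
      ¬ S ⊆ ⋃ A ∈ F, (A : Set (E n))) (r : ℕ) : {w ∈ S | Tame S r w}.Finite := by
  classical
  obtain ⟨B, hBS, hBN, hGP⟩ := exists_GP (by omega) S hS (n * 2 ^ r + 1)
  obtain ⟨M, hMpos, hM⟩ := pigeon S hrat r n B hBS hBN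
  refine Set.Finite.subset (Set.Finite.biUnion (B.powerset.filter (fun I => I.card = n + 1)).finite_toSet
    (t := fun I => ⋃ x0 ∈ (I : Set (E n)),
      {w : E n | ∀ y ∈ I, ∃ k : ℤ, (2 * M : ℝ) * (dist w x0 - dist w y) = k}) ?_) ?_
  · intro I hI
    have hI' := Finset.mem_filter.1 (Finset.mem_coe.1 hI)
    refine Set.Finite.biUnion I.finite_toSet ?_
    intro x0 hx0
    exact finite_close hn I hI'.2 (hGP I (Finset.mem_powerset.1 hI'.1) (by rw [hI'.2])) x0
      (Finset.mem_coe.1 hx0) M hMpos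
  · rintro w ⟨hwS, hT⟩
    obtain ⟨I, hIB, hIcard, hI⟩ := hM w hwS hT
    have hIne : I.Nonempty := by rw [← Finset.card_pos, hIcard]; omega
    obtain ⟨x0, hx0⟩ := hIne
    rw [Set.mem_iUnion₂]
    refine ⟨I, Finset.mem_coe.2 (Finset.mem_filter.2 ⟨Finset.mem_powerset.2 hIB, hIcard⟩), ?_⟩
    rw [Set.mem_iUnion₂]
    exact ⟨x0, Finset.mem_coe.2 hx0, fun y hy => hI x0 hx0 y hy⟩

theorem union_thin (F : Set (AffineSubspace ℝ (E n))) (hF : F.Finite) :
    (∀ A ∈ F, A ≠ ⊤) → IsClosed (⋃ A ∈ F, (A : Set (E n))) ∧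
      interior (⋃ A ∈ F, (A : Set (E n))) = ∅ := by
  induction F, hF using Set.Finite.induction_on with
  | empty => intro _; simp
  | insert _ _ ih =>
    rename_i A F' hAF hF'
    intro hA
    rw [Set.biUnion_insert]
    have hcl : IsClosed (A : Set (E n)) := AffineSubspace.closed_of_finiteDimensional A
    have hint : interior (A : Set (E n)) = ∅ := by
      by_contra hne
      have hne' : (interior (A : Set (E n))).Nonempty := Set.nonempty_iff_ne_empty.2 hne
      have h1 := IsOpen.affineSpan_eq_top isOpen_interior hne'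
      apply hA A (Set.mem_insert _ _)
      rw [eq_top_iff, ← h1]
      exact affineSpan_le.2 interior_subset
    obtain ⟨h1, h2⟩ := ih (fun B hB => hA B (Set.mem_insert_of_mem _ hB))
    exact ⟨hcl.union h1, by rw [interior_union_isClosed_of_interior_empty hcl h2, hint]⟩

/-- a dense set is not covered by finitely many proper affine subspaces -/
theorem not_covered_of_dense (S : Set (E n)) (hS : Dense S)
    (F : Set (AffineSubspace ℝ (E n))) (hF : F.Finite) (hA : ∀ A ∈ F, A ≠ ⊤) :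
    ¬ S ⊆ ⋃ A ∈ F, (A : Set (E n)) := by
  intro hsub
  have key := union_thin F hF hA
  have h1 : closure S ⊆ ⋃ A ∈ F, (A : Set (E n)) := key.1.closure_subset_iff.2 hsub
  rw [hS.closure_eq] at h1
  have h2 : (⋃ A ∈ F, (A : Set (E n))) = Set.univ := Set.univ_subset_iff.1 h1
  have h3 := key.2
  rw [h2, interior_univ] at h3
  exact Set.univ_nonempty.ne_empty h3

end Pool.Agent.Hhelper51.ED
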