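import Mathlib
import Pool.Agent.Hhelper51.ED.Main

set_option autoImplicit false

/-!
The plane: for every rational-distance set the tame points lie in the union of a line and a finite
set, and non-splitness can be tested on one nondegenerate triangle.
-/

namespace Pool.Agent.Hhelper51.ED

open Module

/-- points with given distance from `x0` and given component along `d` -/
theorem finite_cap (x0 d : E 2) (hd : d ≠ 0) (p t : ℝ) :
    {w : E 2 | inner ℝ (w - x0) d = p ∧ ‖w - x0‖ = t}.Finite := by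
  classical
  have hfact : Fact (finrank ℝ (E 2) = 1 + 1) := ⟨by simp⟩
  have h1 := Submodule.finrank_orthogonal_span_singleton (𝕜 := ℝ) (n := 1) hd
  obtain ⟨e', he'0, he'⟩ := finrank_eq_one_iff'.1 h1
  have hen : ‖(e' : E 2)‖ ^ 2 ≠ 0 := by
    rw [Ne, pow_eq_zero_iff two_ne_zero, norm_eq_zero]
    intro h
    exact he'0 (Subtype.ext h)
  have hdn : ‖d‖ ^ 2 ≠ 0 := by
    rw [Ne, pow_eq_zero_iff two_ne_zero, norm_eq_zero]; exact hd
  refine ((quad_roots_finite (‖(e' : E 2)‖ ^ 2)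
    (2 * inner ℝ ((p / ‖d‖ ^ 2) • d) (e' : E 2)) (‖(p / ‖d‖ ^ 2) • d‖ ^ 2 - t ^ 2) (fun h => hen h.1)).image
    (fun s : ℝ => x0 + ((p / ‖d‖ ^ 2) • d + s • (e' : E 2)))).subset ?_
  rintro w ⟨hp, ht⟩
  have horth : (w - x0) - (p / ‖d‖ ^ 2) • d ∈ (Submodule.span ℝ {d})ᗮ := by
    rw [Submodule.mem_orthogonal_singleton_iff_inner_left, inner_sub_left, hp, inner_smul_left,
      real_inner_self_eq_norm_sq]
    simp only [conj_trivial]
    field_simp
    ring
  obtain ⟨s, hs⟩ := he' ⟨_, horth⟩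
  have hs' : s • (e' : E 2) = (w - x0) - (p / ‖d‖ ^ 2) • d := congrArg Subtype.val hs
  have hw : (p / ‖d‖ ^ 2) • d + s • (e' : E 2) = w - x0 := by rw [hs']; abel
  refine ⟨s, ?_, ?_⟩
  · show ‖(e' : E 2)‖ ^ 2 * s ^ 2 + (2 * inner ℝ ((p / ‖d‖ ^ 2) • d) (e' : E 2)) * s
      + (‖(p / ‖d‖ ^ 2) • d‖ ^ 2 - t ^ 2) = 0
    have h2 := congrArg (fun v : E 2 => ‖v‖ ^ 2) hw
    simp only [norm_add_sq_real, ht, inner_smul_right (E := E 2) _ (e' : E 2) s] at h2
    have h3 : ‖s • (e' : E 2)‖ ^ 2 = s ^ 2 * ‖(e' : E 2)‖ ^ 2 := by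
      rw [norm_smul, mul_pow, Real.norm_eq_abs, sq_abs]
    rw [h3] at h2
    linarith
  · show x0 + ((p / ‖d‖ ^ 2) • d + s • (e' : E 2)) = w
    rw [hw]; abel

/-- three collinear points: off the line, the differences of distances determine the point up to
finitely many choices -/
theorem finite_collinear (x0 d : E 2) (hd : ‖d‖ = 1) (s1 s2 : ℝ) (h1 : s1 ≠ 0) (h2 : s2 ≠ 0)
    (h12 : s1 ≠ s2) (α β : ℝ) :
    {w : E 2 | (∀ s : ℝ, w ≠ x0 + s • d) ∧ dist w x0 - dist w (x0 + s1 • d) = α ∧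
      dist w x0 - dist w (x0 + s2 • d) = β}.Finite := by
  have hd0 : d ≠ 0 := by
    intro h; rw [h, norm_zero] at hd; exact zero_ne_one hd
  -- the basic equations
  have eqs : ∀ (w : E 2) (s a : ℝ), dist w x0 - dist w (x0 + s • d) = a →
      2 * a * ‖w - x0‖ = 2 * s * inner ℝ (w - x0) d + a ^ 2 - s ^ 2 := by
    intro w s a h
    have e1 : dist w (x0 + s • d) = ‖(w - x0) - s • d‖ := by
      rw [dist_eq_norm]; congr 1; abel
    rw [dist_eq_norm, e1] at h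
    generalize w - x0 = u at h ⊢
    have e2 : ‖u - s • d‖ = ‖u‖ - a := by linarith
    have e3 := congrArg (fun t : ℝ => t ^ 2) e2
    simp only [norm_sub_sq_real, inner_smul_right, norm_smul, hd, mul_one, Real.norm_eq_abs,
      sq_abs] at e3
    linarith
  by_cases hdet : β * s1 - α * s2 = 0
  · -- no solutions
    refine Set.Finite.subset Set.finite_empty ?_
    rintro w ⟨hw, hα, hβ⟩
    have e1 := eqs w s1 α hα
    have e2 := eqs w s2 β hβ
    -- `α² = s1²`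
    have e3 : (α ^ 2 - s1 ^ 2) * (s1 - s2) * s2 = 0 := by
      have e4 : β * s1 = α * s2 := by linarith
      have e5 : (α ^ 2 - s1 ^ 2) * s2 = (β ^ 2 - s2 ^ 2) * s1 := by
        linear_combination -s2 * e1 + s1 * e2 - 2 * ‖w - x0‖ * hdet
      have e6 : (α ^ 2 - s1 ^ 2) * s2 * s1 = (β ^ 2 * s1 ^ 2 - s2 ^ 2 * s1 ^ 2) := by
        rw [e5]; ring
      have e7 : β ^ 2 * s1 ^ 2 = α ^ 2 * s2 ^ 2 := by
        have e14 : (β * s1) ^ 2 = (α * s2) ^ 2 := by rw [e4]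
        linear_combination e14
      rw [e7] at e6
      linear_combination e6
    have e8 : α ^ 2 = s1 ^ 2 := by
      rcases mul_eq_zero.1 e3 with h | h
      · rcases mul_eq_zero.1 h with h | h
        · linarith
        · exact absurd (sub_eq_zero.1 h) h12
      · exact absurd h h2
    exfalso
    -- then `w` is on the line
    have e9 : α * ‖w - x0‖ = s1 * inner ℝ (w - x0) d := by
      rw [e8] at e1; linarith
    have e10 : inner ℝ (w - x0) d ^ 2 = ‖w - x0‖ ^ 2 := by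
      have := congrArg (fun t => t ^ 2) e9
      simp only [mul_pow] at this
      rw [e8] at this
      exact (mul_left_cancel₀ (pow_ne_zero 2 h1) this).symm
    have e11 : ‖(w - x0) - (inner ℝ (w - x0) d) • d‖ ^ 2 = 0 := by
      rw [norm_sub_sq_real, inner_smul_right, norm_smul, hd, mul_one, Real.norm_eq_abs, sq_abs]
      linarith
    have e12 : (w - x0) - (inner ℝ (w - x0) d) • d = 0 :=
      norm_eq_zero.1 ((pow_eq_zero_iff two_ne_zero).1 e11)
    apply hw (inner ℝ (w - x0) d)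
    have e13 : w = x0 + (w - x0) := by abel
    rw [e13, sub_eq_zero.1 e12]
    simp only [add_sub_cancel_left]
    rw [inner_smul_left, real_inner_self_eq_norm_sq, hd]
    simp
  · -- unique component and distance
    set t0 : ℝ := ((β ^ 2 - s2 ^ 2) * s1 - (α ^ 2 - s1 ^ 2) * s2) / (2 * (β * s1 - α * s2)) with ht0
    set p0 : ℝ := (2 * α * t0 - α ^ 2 + s1 ^ 2) / (2 * s1) with hp0
    refine (finite_cap x0 d hd0 p0 t0).subset ?_
    rintro w ⟨-, hα, hβ⟩
    have e1 := eqs w s1 α hα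
    have e2 := eqs w s2 β hβ
    have ht : ‖w - x0‖ = t0 := by
      rw [ht0, eq_div_iff (mul_ne_zero two_ne_zero hdet)]
      linear_combination s1 * e2 - s2 * e1
    refine ⟨?_, ht⟩
    rw [hp0, ← ht, eq_div_iff (mul_ne_zero two_ne_zero h1)]
    linarith

/-- the same with rational differences of bounded denominator -/
theorem finite_collinear_close (a d : E 2) (hd : ‖d‖ = 1) (s1 s2 : ℝ) (h1 : s1 ≠ 0)
    (h2 : s2 ≠ 0) (h12 : s1 ≠ s2) (M : ℕ) (hM : 0 < M) :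
    {w : E 2 | (∀ s : ℝ, w ≠ a + s • d) ∧
      (∃ k : ℤ, (2 * M : ℝ) * (dist w a - dist w (a + s1 • d)) = k) ∧
      (∃ k : ℤ, (2 * M : ℝ) * (dist w a - dist w (a + s2 • d)) = k)}.Finite := by
  have hV := fun y : E 2 => finite_values M hM (dist a y)
  refine (((hV (a + s1 • d)).prod (hV (a + s2 • d))).biUnion
    (fun (q : ℝ × ℝ) _ => finite_collinear a d hd s1 s2 h1 h2 h12 q.1 q.2)).subset ?_
  rintro w ⟨hw, hk1, hk2⟩
  rw [Set.mem_iUnion₂]
  have habs : ∀ y : E 2, |dist w a - dist w y| ≤ dist a y := by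
    intro y
    have h1 := abs_dist_sub_le a y w
    rwa [dist_comm a w, dist_comm y w] at h1
  exact ⟨(dist w a - dist w (a + s1 • d), dist w a - dist w (a + s2 • d)),
    Set.mem_prod.2 ⟨⟨habs _, hk1⟩, ⟨habs _, hk2⟩⟩, ⟨hw, rfl, rfl⟩⟩

theorem exists_line (S : Set (E 2)) (F : Set (AffineSubspace ℝ (E 2))) (hF : F.Finite)
    (hA : ∀ A ∈ F, A ≠ ⊤) (hcov : S ⊆ ⋃ A ∈ F, (A : Set (E 2))) (hinf : S.Infinite) :
    ∃ x0 d : E 2, ‖d‖ = 1 ∧ {w ∈ S | ∃ s : ℝ, w = x0 + s • d}.Infinite := by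
  have h1 : ∃ A ∈ F, (S ∩ (A : Set (E 2))).Infinite := by
    by_contra hcon
    push Not at hcon
    apply hinf
    refine (hF.biUnion (fun A hA' => (hcon A hA'))).subset ?_
    intro w hw
    obtain ⟨A, hA', hwA⟩ := Set.mem_iUnion₂.1 (hcov hw)
    exact Set.mem_iUnion₂.2 ⟨A, hA', hw, hwA⟩
  obtain ⟨A, hAF, hAinf⟩ := h1
  obtain ⟨x0, ⟨hx0S, hx0⟩, y, ⟨hyS, hy⟩, hne⟩ := hAinf.nontrivial
  have hx0' : x0 ∈ A := hx0
  have hy' : y ∈ A := hy
  set v : E 2 := y - x0 with hv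
  have hv0 : v ≠ 0 := sub_ne_zero.2 (Ne.symm hne)
  have hvn : ‖v‖ ≠ 0 := norm_ne_zero_iff.2 hv0
  have hvA : v ∈ A.direction := by
    have := AffineSubspace.vsub_mem_direction hy' hx0'
    rwa [vsub_eq_sub] at this
  have hdt : A.direction ≠ ⊤ := by
    intro h
    exact hA A hAF ((AffineSubspace.direction_eq_top_iff_of_nonempty ⟨x0, hx0⟩).1 h)
  have hlt : finrank ℝ A.direction < 2 := by
    have := Submodule.finrank_lt hdt
    have h2 : finrank ℝ (E 2) = 2 := by simp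
    omega
  have hge : 0 < finrank ℝ A.direction := by
    rw [finrank_pos_iff_exists_ne_zero]
    exact ⟨⟨v, hvA⟩, fun h => hv0 (congrArg Subtype.val h)⟩
  have hone : finrank ℝ A.direction = 1 := by omega
  have hspan := (finrank_eq_one_iff_of_nonzero' (⟨v, hvA⟩ : A.direction)
    (fun h => hv0 (congrArg Subtype.val h))).1 hone
  refine ⟨x0, (‖v‖)⁻¹ • v, ?_, ?_⟩
  · rw [norm_smul, norm_inv, norm_norm, inv_mul_cancel₀ hvn]
  · refine hAinf.mono ?_
    rintro w ⟨hwS, hwA⟩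
    have hwA' : w ∈ A := hwA
    refine ⟨hwS, ?_⟩
    have hm : w - x0 ∈ A.direction := by
      have := AffineSubspace.vsub_mem_direction hwA' hx0'
      rwa [vsub_eq_sub] at this
    obtain ⟨c, hc⟩ := hspan ⟨w - x0, hm⟩
    have hc' : c • v = w - x0 := congrArg Subtype.val hc
    refine ⟨c * ‖v‖, ?_⟩
    rw [smul_smul, mul_assoc, mul_inv_cancel₀ hvn, mul_one, hc']
    abel

/-- inner products of differences of points of a rational-distance set are rational -/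
theorem rat_inner {n : ℕ} (S : Set (E n)) (hrat : RatDist S) {x w x' w' : E n} (hx : x ∈ S)
    (hw : w ∈ S) (hx' : x' ∈ S) (hw' : w' ∈ S) : ∃ q : ℚ, inner ℝ (x - w) (x' - w') = (q : ℝ) := by
  obtain ⟨q1, h1⟩ := hrat x hx w' hw'
  obtain ⟨q2, h2⟩ := hrat w hw x' hx'
  obtain ⟨q3, h3⟩ := hrat x hx x' hx'
  obtain ⟨q4, h4⟩ := hrat w hw w' hw'
  refine ⟨(q1 ^ 2 + q2 ^ 2 - q3 ^ 2 - q4 ^ 2) / 2, ?_⟩
  push_cast
  rw [← h1, ← h2, ← h3, ← h4]
  simp only [dist_eq_norm, norm_sub_sq_real, inner_sub_left, inner_sub_right]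
  rw [real_inner_comm x' w, real_inner_comm x' x, real_inner_comm w' w, real_inner_comm w' x]
  ring

theorem gram_two (u v : E 2) :
    ‖u‖ ^ 2 * ‖v‖ ^ 2 - inner ℝ u v ^ 2 = (u 0 * v 1 - u 1 * v 0) ^ 2 := by
  rw [EuclideanSpace.norm_sq_eq, EuclideanSpace.norm_sq_eq, PiLp.inner_apply]
  simp only [Fin.sum_univ_two, Real.norm_eq_abs, sq_abs, RCLike.inner_apply, conj_trivial]
  ring

theorem cauchy_two (u v u' v' : E 2) :
    (u 0 * v 1 - u 1 * v 0) * (u' 0 * v' 1 - u' 1 * v' 0) =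
      inner ℝ u u' * inner ℝ v v' - inner ℝ u v' * inner ℝ v u' := by
  simp only [PiLp.inner_apply, Fin.sum_univ_two, RCLike.inner_apply, conj_trivial]
  ring

theorem heron_det (w x y : E 2) (a b c : ℚ) (ha : dist w x = a) (hb : dist w y = b)
    (hc : dist x y = c) : ((heron a b c : ℚ) : ℝ) =
      4 * ((x - w) 0 * (y - w) 1 - (x - w) 1 * (y - w) 0) ^ 2 := by
  rw [← gram_two]
  have e1 : ‖x - w‖ = a := by rw [← ha, dist_comm, dist_eq_norm]
  have e2 : ‖y - w‖ = b := by rw [← hb, dist_comm, dist_eq_norm]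
  have e3 : ‖(x - w) - (y - w)‖ = c := by
    rw [← hc, dist_eq_norm]; congr 1; abel
  have e4 := norm_sub_sq_real (x - w) (y - w)
  rw [e1, e2, e3] at e4
  have e5 : inner ℝ (x - w) (y - w) = ((a : ℝ) ^ 2 + b ^ 2 - c ^ 2) / 2 := by linarith
  rw [e1, e2, e5]
  unfold heron
  push_cast
  ring

/-- in the plane one nondegenerate triangle decides whether a prime is non-split -/
theorem one_triangle (S : Set (E 2)) (hrat : RatDist S) (p : ℕ) {w' x' y' : E 2} (hw' : w' ∈ S)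
    (hx' : x' ∈ S) (hy' : y' ∈ S) (a' b' c' : ℚ) (ha' : dist w' x' = a') (hb' : dist w' y' = b')
    (hc' : dist x' y' = c') (h0 : heron a' b' c' ≠ 0) (hns : NonSplitTri p a' b' c')
    (w : E 2) (hw : w ∈ S) : NonSplitAt S w p := by
  intro x hx y hy a b c ha hb hc hp
  rintro ⟨z, hz0, hz⟩
  apply hns
  obtain ⟨q1, h1⟩ := rat_inner S hrat hx hw hx' hw'
  obtain ⟨q2, h2⟩ := rat_inner S hrat hy hw hy' hw'
  obtain ⟨q3, h3⟩ := rat_inner S hrat hx hw hy' hw'
  obtain ⟨q4, h4⟩ := rat_inner S hrat hy hw hx' hw'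
  have hprod : heron a b c * heron a' b' c' = (4 * (q1 * q2 - q3 * q4)) ^ 2 := by
    have h5 : ((heron a b c * heron a' b' c' : ℚ) : ℝ) = (((4 * (q1 * q2 - q3 * q4)) ^ 2 : ℚ) : ℝ) := by
      push_cast
      rw [heron_det w x y a b c ha hb hc, heron_det w' x' y' a' b' c' ha' hb' hc', ← h1, ← h2,
        ← h3, ← h4, ← cauchy_two]
      ring
    exact_mod_cast h5
  have hpr : ((heron a b c : ℚ) : ℚ_[p]) * ((heron a' b' c' : ℚ) : ℚ_[p])
      = ((4 * (q1 * q2 - q3 * q4) : ℚ) : ℚ_[p]) ^ 2 := by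
    rw [← Rat.cast_mul, hprod, Rat.cast_pow]
  have h0' : ((heron a' b' c' : ℚ) : ℚ_[p]) ≠ 0 := by exact_mod_cast h0
  have hz' : z * z = -((heron a b c : ℚ) : ℚ_[p]) := by rw [hz]; push_cast; ring
  have hsq : (((4 * (q1 * q2 - q3 * q4) : ℚ) : ℚ_[p]) / z) * (((4 * (q1 * q2 - q3 * q4) : ℚ) : ℚ_[p]) / z)
      = ((-heron a' b' c' : ℚ) : ℚ_[p]) := by
    have h6 : ((-heron a' b' c' : ℚ) : ℚ_[p]) = -((heron a' b' c' : ℚ) : ℚ_[p]) := by push_cast; ring
    rw [h6, div_mul_div_comm, div_eq_iff (mul_ne_zero hz0 hz0), hz', ← sq, ← hpr]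
    ring
  refine ⟨((4 * (q1 * q2 - q3 * q4) : ℚ) : ℚ_[p]) / z, ?_, hsq⟩
  intro h7
  rw [h7, mul_zero] at hsq
  apply h0'
  have h8 : ((-heron a' b' c' : ℚ) : ℚ_[p]) = -((heron a' b' c' : ℚ) : ℚ_[p]) := by push_cast; ring
  rw [h8] at hsq
  exact neg_eq_zero.1 hsq.symm

theorem plane (S : Set (E 2)) (hrat : RatDist S) (r : ℕ) :
    ∃ x0 d : E 2, d ≠ 0 ∧ {w ∈ S | Tame S r w ∧ ∀ s : ℝ, w ≠ x0 + s • d}.Finite := by
  classical
  by_cases hT : {w ∈ S | Tame S r w}.Finite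
  · obtain ⟨d, hd⟩ := exists_ne (0 : E 2)
    exact ⟨0, d, hd, hT.subset (fun w hw => ⟨hw.1, hw.2.1⟩)⟩
  · have hcov : ∃ F : Set (AffineSubspace ℝ (E 2)), F.Finite ∧ (∀ A ∈ F, A ≠ ⊤) ∧
        S ⊆ ⋃ A ∈ F, (A : Set (E 2)) := by
      by_contra hcon
      push Not at hcon
      exact hT (main le_rfl S hrat (fun F hF hA => hcon F hF hA) r)
    obtain ⟨F, hF, hA, hc⟩ := hcov
    have hinf : S.Infinite := fun h => hT (h.subset (fun w hw => hw.1))
    obtain ⟨x0, d, hd, hl⟩ := exists_line S F hF hA hc hinf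
    refine ⟨x0, d, fun h => by rw [h, norm_zero] at hd; exact zero_ne_one hd, ?_⟩
    obtain ⟨B, hB, hBN⟩ := hl.exists_subset_card_eq (2 * 2 ^ r + 1)
    obtain ⟨M, hMpos, hM⟩ := pigeon S hrat r 2 B (fun y hy => (hB hy).1) hBN
    -- the union over triples of base points
    let T : Finset (E 2 × E 2 × E 2) := (B ×ˢ B ×ˢ B).filter
      (fun q => q.1 ≠ q.2.1 ∧ q.1 ≠ q.2.2 ∧ q.2.1 ≠ q.2.2)
    refine Set.Finite.subset (Set.Finite.biUnion T.finite_toSet
      (t := fun q => {w : E 2 | (∀ s : ℝ, w ≠ x0 + s • d) ∧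
        (∃ k : ℤ, (2 * M : ℝ) * (dist w q.1 - dist w q.2.1) = k) ∧
        (∃ k : ℤ, (2 * M : ℝ) * (dist w q.1 - dist w q.2.2) = k)}) ?_) ?_
    · rintro ⟨a, b, c⟩ hq
      obtain ⟨hq1, hab, hac, hbc⟩ := Finset.mem_filter.1 (Finset.mem_coe.1 hq)
      obtain ⟨haB, hbcB⟩ := Finset.mem_product.1 hq1
      obtain ⟨hbB, hcB⟩ := Finset.mem_product.1 hbcB
      simp only at hab hac hbc haB hbB hcB
      obtain ⟨-, sa, ha⟩ := hB (Finset.mem_coe.2 haB)
      obtain ⟨-, sb, hb⟩ := hB (Finset.mem_coe.2 hbB)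
      obtain ⟨-, sc, hc'⟩ := hB (Finset.mem_coe.2 hcB)
      have e1 : b = a + (sb - sa) • d := by rw [ha, hb, sub_smul]; abel
      have e2 : c = a + (sc - sa) • d := by rw [ha, hc', sub_smul]; abel
      have n1 : sb - sa ≠ 0 := by
        intro h; apply hab; rw [e1, h, zero_smul, add_zero]
      have n2 : sc - sa ≠ 0 := by
        intro h; apply hac; rw [e2, h, zero_smul, add_zero]
      have n3 : sb - sa ≠ sc - sa := by
        intro h; apply hbc; rw [e1, e2, h]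
      refine (finite_collinear_close a d hd (sb - sa) (sc - sa) n1 n2 n3 M hMpos).subset ?_
      rintro w ⟨hw, hk1, hk2⟩
      refine ⟨?_, ?_, ?_⟩
      · intro s hs
        apply hw (sa + s)
        rw [hs, ha, add_smul]; abel
      · rw [← e1]; exact hk1
      · rw [← e2]; exact hk2
    · rintro w ⟨hwS, hwT, hwl⟩
      obtain ⟨I, hIB, hIcard, hI⟩ := hM w hwS hwT
      obtain ⟨a, b, c, hab, hac, hbc, rfl⟩ := Finset.card_eq_three.1 hIcard
      rw [Set.mem_iUnion₂]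
      refine ⟨(a, b, c), Finset.mem_coe.2 (Finset.mem_filter.2 ⟨Finset.mem_product.2
        ⟨hIB (by simp), Finset.mem_product.2 ⟨hIB (by simp), hIB (by simp)⟩⟩, hab, hac, hbc⟩), ?_⟩
      exact ⟨hwl, hI a (by simp) b (by simp), hI a (by simp) c (by simp)⟩

end Pool.Agent.Hhelper51.ED
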